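import Pool.Agent.helper48.AGR.Spec

/-!
# AGR, row ALO: lower bound for the automorphic growth
-/

set_option autoImplicit false

namespace Pool.Agent.AGR

open Monoid Function

/-- Row ALO. -/
theorem ALO (hBAL : BAL_stmt) : ALO_stmt := by
  intro G _ v π t z s e₀ a₀ h S hS
  obtain ⟨b1, -, b3, b4, b5⟩ := hBAL G S
  -- `z` is not in `V`
  have hzV : ∀ a, z ≠ v a := by
    intro a ha
    have h1 := h.tz
    rw [ha] at h1
    have h2 : t * v a * t⁻¹ = v a := by
      rw [mul_inv_eq_iff_eq_mul]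
      exact (h.cen a t).symm
    rw [h2] at h1
    have h3 : v a₀ = 1 := by
      have h4 := h1.symm
      rwa [mul_eq_right] at h4
    exact h.a0 (h.inj (h3.trans (map_one v).symm))
  -- homomorphisms to the integers
  have hconj : ∀ (χ : G →* Multiplicative ℤ) (x y : G), IsConj x y → χ x = χ y := by
    intro χ x y hxy
    obtain ⟨c, hc⟩ := isConj_iff.1 hxy
    rw [← hc, map_mul, map_mul, map_inv, mul_comm (χ c), mul_inv_cancel_right]
  have hz1 : ∀ χ : G →* Multiplicative ℤ, χ z = 1 := by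
    intro χ
    have h1 : χ z = χ (z ^ 2) := hconj χ _ _ (isConj_iff.2 ⟨s, h.zz⟩)
    rw [map_pow, pow_two] at h1
    have h2 := h1.symm
    rwa [mul_eq_left] at h2
  have he : ∀ χ : G →* Multiplicative ℤ, χ e₀ = 1 := fun χ => by
    rw [hconj χ e₀ z (h.cU z h.z1 hzV), hz1]
  have hk1 : ∀ (χ : G →* Multiplicative ℤ) (g : G), π g = 1 → (∀ a, g ≠ v a) → χ g = 1 := by
    intro χ g hg hne
    rw [← hconj χ e₀ g (h.cU g hg hne), he]
  have hk : ∀ (χ : G →* Multiplicative ℤ) (g : G), π g = 1 → χ g = 1 := by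
    intro χ g hg
    by_cases hne : ∀ a, g ≠ v a
    · exact hk1 χ g hg hne
    · push Not at hne
      obtain ⟨a, rfl⟩ := hne
      have h1 : χ (v a * e₀) = 1 := by
        apply hk1
        · rw [map_mul, hg, h.e1, one_mul]
        · intro b hb
          apply h.e2 (a⁻¹ * b)
          rw [map_mul, ← hb, map_inv, inv_mul_cancel_left]
      rwa [map_mul, he, mul_one] at h1
  have hgen : ∀ (χ : G →* Multiplicative ℤ) (g : G),
      χ g = χ t ^ (Multiplicative.toAdd (π g)) := by
    intro χ g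
    have h1 : χ (g * (t ^ (Multiplicative.toAdd (π g)))⁻¹) = 1 := by
      apply hk
      rw [map_mul, map_inv, map_zpow, h.pit, ← ofAdd_zsmul, smul_eq_mul, mul_one, ofAdd_toAdd,
        mul_inv_cancel]
    rw [map_mul, map_inv, mul_inv_eq_one, map_zpow] at h1
    exact h1
  have haut : ∀ (φ : MulAut G), ∃ m : ℤ, (m = 1 ∨ m = -1) ∧
      ∀ g, Multiplicative.toAdd (π (φ g)) = m * Multiplicative.toAdd (π g) := by
    intro φ
    have h1 : ∀ g, Multiplicative.toAdd (π (φ g)) =
        Multiplicative.toAdd (π (φ t)) * Multiplicative.toAdd (π g) := by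
      intro g
      have h2 := hgen (π.comp φ.toMonoidHom) g
      have h3 : π (φ g) = π (φ t) ^ (Multiplicative.toAdd (π g)) := h2
      rw [h3, toAdd_zpow, smul_eq_mul, mul_comm]
    refine ⟨Multiplicative.toAdd (π (φ t)), ?_, h1⟩
    have h2 := h1 (φ.symm t)
    rw [MulEquiv.apply_symm_apply, h.pit, toAdd_ofAdd] at h2
    exact Int.eq_one_or_neg_one_of_mul_eq_one h2.symm
  have hinj : ∀ i j : ℕ, (Quotient.mk'' (t ^ i) : MulAction.orbitRel.Quotient (MulAut G) G) =
      Quotient.mk'' (t ^ j) → i = j := by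
    intro i j hij
    rw [Quotient.eq''] at hij
    have h1 : t ^ i ∈ MulAction.orbit (MulAut G) (t ^ j) := hij
    obtain ⟨φ, hφ⟩ := h1
    have h2 : φ (t ^ j) = t ^ i := hφ
    obtain ⟨m, hm, hm2⟩ := haut φ
    have h3 := hm2 (t ^ j)
    rw [h2] at h3
    have h4 : ∀ k : ℕ, Multiplicative.toAdd (π (t ^ k)) = (k : ℤ) := by
      intro k
      rw [map_pow, h.pit, ← ofAdd_nsmul]
      simp
    rw [h4, h4] at h3
    rcases hm with rfl | rfl <;> omega
  obtain ⟨K₀, hK₀⟩ := b4 hS t
  have hpow : ∀ i : ℕ, t ^ i ∈ Ball (S : Set G) (K₀ * i) := by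
    intro i
    induction i with
    | zero => exact ⟨[], by simp, by simp, by simp⟩
    | succ i ih =>
      rw [pow_succ, Nat.mul_succ]
      exact b1 _ _ _ _ ih hK₀
  refine ⟨K₀ + 1, by omega, fun n => ?_⟩
  have hfin : {c : MulAction.orbitRel.Quotient (MulAut G) G |
      ∃ g ∈ Ball (S : Set G) ((K₀ + 1) * n + (K₀ + 1)), Quotient.mk'' g = c}.Finite := by
    have e : {c : MulAction.orbitRel.Quotient (MulAut G) G |
        ∃ g ∈ Ball (S : Set G) ((K₀ + 1) * n + (K₀ + 1)), Quotient.mk'' g = c} =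
        (fun g => (Quotient.mk'' g : MulAction.orbitRel.Quotient (MulAut G) G)) ''
          Ball (S : Set G) ((K₀ + 1) * n + (K₀ + 1)) := rfl
    rw [e]
    exact (b5 _).1.image _
  have hsub : (fun i : ℕ => (Quotient.mk'' (t ^ i) : MulAction.orbitRel.Quotient (MulAut G) G)) ''
      (Finset.range n : Set ℕ) ⊆ {c : MulAction.orbitRel.Quotient (MulAut G) G |
      ∃ g ∈ Ball (S : Set G) ((K₀ + 1) * n + (K₀ + 1)), Quotient.mk'' g = c} := by
    rintro _ ⟨i, hi, rfl⟩
    refine ⟨t ^ i, b3 _ _ ?_ (hpow i), rfl⟩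
    have hi' : i < n := by simpa using hi
    calc K₀ * i ≤ K₀ * n := Nat.mul_le_mul_left _ hi'.le
      _ ≤ (K₀ + 1) * n + (K₀ + 1) := by
        rw [Nat.add_mul]
        omega
  have hcard := Set.ncard_le_ncard hsub hfin
  rw [Set.ncard_image_of_injective _ (fun i j hij => hinj i j hij), Set.ncard_coe_finset,
    Finset.card_range] at hcard
  exact hcard

end Pool.Agent.AGR
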