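import Mathlib

/-!
# Exponential conjugacy growth, linear automorphic growth (MP_def0df_al): definitions

Amalgams of two groups (a wrapper around `Monoid.PushoutI`), the groups `W v J = Γ *_V (V × F(J))`,
systems of partial automorphisms, growth functions.
-/

set_option autoImplicit false

namespace Pool.Agent.AGR

open Monoid Function

/-! ## Amalgams of two groups -/

/-- The two factors. -/
def Fam (L R : Type) : Bool → Type
  | false => L
  | true => R

instance instGroupFam (L R : Type) [Group L] [Group R] : ∀ b, Group (Fam L R b)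
  | false => inferInstanceAs (Group L)
  | true => inferInstanceAs (Group R)

section Amalgam

variable {L R C K : Type} [Group L] [Group R] [Group C] [Group K]

/-- The two maps of the base group. -/
def fmap (f : C →* L) (g : C →* R) : ∀ b, C →* Fam L R b
  | false => f
  | true => g

/-- The amalgam of `L` and `R` over `C`: `f c` in `L` is identified with `g c` in `R`. -/
def Am (f : C →* L) (g : C →* R) : Type := PushoutI (fmap f g)

instance (f : C →* L) (g : C →* R) : Group (Am f g) :=
  inferInstanceAs (Group (PushoutI (fmap f g)))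

variable {f : C →* L} {g : C →* R}

/-- The map of the left factor. -/
def inl : L →* Am f g := PushoutI.of (φ := fmap f g) false

/-- The map of the right factor. -/
def inr : R →* Am f g := PushoutI.of (φ := fmap f g) true

theorem glue (c : C) : (inl (f c) : Am f g) = inr (g c) :=
  (PushoutI.of_apply_eq_base (fmap f g) false c).trans
    (PushoutI.of_apply_eq_base (fmap f g) true c).symm

/-- The components of a homomorphism from an amalgam. -/
def liftFam (a : L →* K) (b : R →* K) : ∀ i, Fam L R i →* K
  | false => a
  | true => b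

/-- The homomorphism from the amalgam given by homomorphisms on the factors. -/
def lift (a : L →* K) (b : R →* K) (h : ∀ c, a (f c) = b (g c)) : Am f g →* K :=
  PushoutI.lift (φ := fmap f g) (liftFam a b) (a.comp f) (by
    rintro (_ | _)
    · rfl
    · exact MonoidHom.ext fun c => (h c).symm)

@[simp] theorem lift_inl (a : L →* K) (b : R →* K) (h : ∀ c, a (f c) = b (g c)) (x : L) :
    lift a b h (inl x : Am f g) = a x :=
  PushoutI.lift_of (φ := fmap f g) _ _ _ (i := false) x

@[simp] theorem lift_inr (a : L →* K) (b : R →* K) (h : ∀ c, a (f c) = b (g c)) (x : R) :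
    lift a b h (inr x : Am f g) = b x :=
  PushoutI.lift_of (φ := fmap f g) _ _ _ (i := true) x

theorem am_induction {motive : Am f g → Prop} (x : Am f g) (hl : ∀ x, motive (inl x))
    (hr : ∀ x, motive (inr x)) (mul : ∀ x y, motive x → motive y → motive (x * y)) : motive x := by
  refine PushoutI.induction_on (φ := fmap f g) (motive := motive) x ?_ ?_ mul
  · rintro (_ | _) y
    · exact hl y
    · exact hr y
  · intro c
    rw [← PushoutI.of_apply_eq_base (fmap f g) false c]
    exact hl (f c)

theorem am_hom_ext {F F' : Am f g →* K} (hl : ∀ x, F (inl x) = F' (inl x))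
    (hr : ∀ x, F (inr x) = F' (inr x)) : F = F' := by
  ext x
  refine am_induction (motive := fun x => F x = F' x) x hl hr (fun x y hx hy => ?_)
  rw [map_mul, map_mul, hx, hy]

theorem fmap_injective (hf : Injective f) (hg : Injective g) : ∀ b, Injective (fmap f g b)
  | false => hf
  | true => hg

theorem inl_injective (hf : Injective f) (hg : Injective g) :
    Injective (inl : L →* Am f g) :=
  PushoutI.of_injective (φ := fmap f g) (fmap_injective hf hg) false

theorem inr_injective (hf : Injective f) (hg : Injective g) :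
    Injective (inr : R →* Am f g) :=
  PushoutI.of_injective (φ := fmap f g) (fmap_injective hf hg) true

end Amalgam

/-- `Red f g a b n x`: `x` is the product of a reduced word of length `n ≥ 1` (alternating letters of
the two factors outside of `C`) with first letter in the factor `a` and last letter in the factor
`b` (`false` is the left factor). -/
inductive Red {L R C : Type} [Group L] [Group R] [Group C] (f : C →* L) (g : C →* R) :
    Bool → Bool → ℕ → Am f g → Prop
  | l (x : L) (h : x ∉ f.range) : Red f g false false 1 (inl x)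
  | r (x : R) (h : x ∉ g.range) : Red f g true true 1 (inr x)
  | app {a b d : Bool} {m n : ℕ} {x y : Am f g} (hx : Red f g a b m x) (hy : Red f g (!b) d n y) :
      Red f g a d (m + n) (x * y)

/-! ## The groups `W v J` -/

/-- The additive group of the rationals, written multiplicatively. -/
abbrev Vt : Type := Multiplicative ℚ

section W

variable {Γ X : Type} [Group Γ] [Group X]

/-- `W v J = Γ *_V (V × F(J))`. -/
abbrev W (v : Vt →* Γ) (J : Type) : Type := Am v (MonoidHom.inl Vt (FreeGroup J))

/-- The map of `Γ`. -/
def W.g {v : Vt →* Γ} {J : Type} : Γ →* W v J := inl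

/-- The new letters. -/
def W.y {v : Vt →* Γ} {J : Type} (j : J) : W v J := inr (1, FreeGroup.of j)

theorem W.comm {v : Vt →* Γ} {J : Type} (a : Vt) (j : J) :
    Commute (W.g (v a) : W v J) (W.y j) := by
  have h : (W.g (v a) : W v J) = inr (a, 1) := glue a
  rw [h]
  change inr (a, 1) * inr (1, FreeGroup.of j) = inr (1, FreeGroup.of j) * inr (a, 1)
  rw [← map_mul, ← map_mul]
  simp

/-- The homomorphism `W v J → X` given by a homomorphism `r` of `Γ` and elements `e j` which commute
with the image of `V`. -/
def W.lift {v : Vt →* Γ} {J : Type} (r : Γ →* X) (e : J → X)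
    (h : ∀ a j, Commute (r (v a)) (e j)) : W v J →* X :=
  AGR.lift r ((r.comp v).noncommCoprod (FreeGroup.lift e) (fun a w => by
    induction w using FreeGroup.induction_on with
    | C1 => simp
    | of j => simpa using h a j
    | inv_of j _ => simpa using (h a j).inv_right
    | mul x y hx hy => simpa using hx.mul_right hy)) (fun a => by simp)

@[simp] theorem W.lift_g {v : Vt →* Γ} {J : Type} (r : Γ →* X) (e : J → X)
    (h : ∀ a j, Commute (r (v a)) (e j)) (x : Γ) : W.lift r e h (W.g x) = r x :=
  lift_inl _ _ _ x

@[simp] theorem W.lift_y {v : Vt →* Γ} {J : Type} (r : Γ →* X) (e : J → X)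
    (h : ∀ a j, Commute (r (v a)) (e j)) (j : J) : W.lift r e h (W.y j) = e j := by
  refine (lift_inr _ _ _ _).trans ?_
  simp

theorem W.hom_ext {v : Vt →* Γ} {J : Type} {F F' : W v J →* X}
    (hg : ∀ x, F (W.g x) = F' (W.g x)) (hy : ∀ j, F (W.y j) = F' (W.y j)) : F = F' := by
  refine am_hom_ext hg ?_
  rintro ⟨a, w⟩
  have e1 : (inr (a, w) : W v J) = W.g (v a) * inr (1, w) := by
    have h : (W.g (v a) : W v J) = inr (a, 1) := glue a
    rw [h, ← map_mul]
    simp
  rw [e1, map_mul, map_mul, hg]
  congr 1
  clear e1
  induction w using FreeGroup.induction_on with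
  | C1 =>
    have : (inr ((1 : Vt), (1 : FreeGroup J)) : W v J) = 1 := map_one _
    rw [this, map_one, map_one]
  | of j => exact hy j
  | inv_of j _ =>
    have : (inr ((1 : Vt), (FreeGroup.of j)⁻¹) : W v J) = (W.y j)⁻¹ := by
      rw [W.y, ← map_inv]
      simp
    rw [this, map_inv, map_inv, hy]
  | mul x y hx hy =>
    have : (inr ((1 : Vt), x * y) : W v J) = inr (1, x) * inr (1, y) := by
      rw [← map_mul]
      simp
    rw [this, map_mul, map_mul, hx, hy]

/-- The family `e` is free over `Γ` (embedded in `X` by `r`), relative to `V`. -/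
def Free {J : Type} (v : Vt →* Γ) (r : Γ →* X) (e : J → X) : Prop :=
  ∃ h : ∀ a j, Commute (r (v a)) (e j), Injective (W.lift (v := v) r e h)

end W

/-! ## Groups with a normal subgroup `V` and systems -/

/-- `x` centralises `V`. -/
def Cen {X : Type} [Group X] (w : Vt →* X) (x : X) : Prop := ∀ a, Commute x (w a)

/-- `V` is embedded as a normal subgroup and its centraliser modulo `V` is torsion free. -/
structure VG {X : Type} [Group X] (w : Vt →* X) : Prop where
  inj : Injective w
  nrm : ∀ (x : X) (a : Vt), ∃ b : Vt, x * w a * x⁻¹ = w b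
  tf : ∀ x : X, Cen w x → ∀ n : ℕ, n ≠ 0 → (∃ a, x ^ n = w a) → ∃ a, x = w a

/-- A partial automorphism `q ∘ p⁻¹` of `X`, which is the identity on `V`, with elements `e i`, `f i`
which are free over the domain, the range. -/
structure Sys where
  X : Type
  Γ : Type
  [gX : Group X]
  [gΓ : Group Γ]
  [cX : Countable X]
  v : Vt →* Γ
  p : Γ →* X
  q : Γ →* X
  hp : Injective p
  hq : Injective q
  hv : ∀ a, p (v a) = q (v a)
  vg : VG (p.comp v)
  e : ℕ → X
  f : ℕ → X
  fe : Free v p e
  ff : Free v q f

attribute [instance] Sys.gX Sys.gΓ Sys.cX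

/-- The embedding of `V`. -/
def Sys.w (S : Sys) : Vt →* S.X := S.p.comp S.v

/-- Morphisms of systems. -/
structure Mor (S T : Sys) where
  j : S.X →* T.X
  c : S.Γ →* T.Γ
  hj : Injective j
  jp : ∀ γ, T.p (c γ) = j (S.p γ)
  jq : ∀ γ, T.q (c γ) = j (S.q γ)
  jv : ∀ a, c (S.v a) = T.v a

/-! ## Growth functions -/

/-- The ball of radius `n` for the word length of a set `S`. -/
def Ball {G : Type} [Group G] (S : Set G) (n : ℕ) : Set G :=
  {g | ∃ l : List G, l.length ≤ n ∧ (∀ x ∈ l, x ∈ S ∨ x⁻¹ ∈ S) ∧ l.prod = g}

/-- The conjugacy growth function. -/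
noncomputable def conjGrowth {G : Type} [Group G] (S : Set G) (n : ℕ) : ℕ :=
  {c : ConjClasses G | ∃ g ∈ Ball S n, ConjClasses.mk g = c}.ncard

/-- The automorphic growth function. -/
noncomputable def autGrowth {G : Type} [Group G] (S : Set G) (n : ℕ) : ℕ :=
  {c : MulAction.orbitRel.Quotient (MulAut G) G | ∃ g ∈ Ball S n, Quotient.mk'' g = c}.ncard

/-- `f ⪯ h`. -/
def Preceq (f h : ℕ → ℝ) : Prop := ∃ C : ℕ, 1 ≤ C ∧ ∀ n, f n ≤ C * h (C * n + C)

/-- `f ∼ h`. -/
def GEquiv (f h : ℕ → ℝ) : Prop := Preceq f h ∧ Preceq h f

/-- Exponential growth: `f ∼ e^n`. -/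
def ExpGrowth (f : ℕ → ℕ) : Prop := GEquiv (fun n => (f n : ℝ)) (fun n => Real.exp n)

/-- Polynomial growth: `f ∼ n^d` for some integer `d ≥ 0`. -/
def PolyGrowth (f : ℕ → ℕ) : Prop := ∃ d : ℕ, GEquiv (fun n => (f n : ℝ)) (fun n => (n : ℝ) ^ d)

end Pool.Agent.AGR
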