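import Pool.Agent.helper48.AGR.Spec

/-!
# AGR, row GRP: the final group
-/

set_option autoImplicit false

namespace Pool.Agent.AGR

open Monoid Function

section GRPaux

variable {Y : Type} [Group Y]

private theorem cen_mul {w : Vt →* Y} {x y : Y} (hx : Cen w x) (hy : Cen w y) : Cen w (x * y) :=
  fun a => (hx a).mul_left (hy a)

private theorem cen_inv {w : Vt →* Y} {x : Y} (hx : Cen w x) : Cen w x⁻¹ :=
  fun a => (hx a).inv_left

private theorem cen_one {w : Vt →* Y} : Cen w 1 := fun _ => Commute.one_left _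

private theorem tau_zpow {w : Vt →* Y} {τ : MulAut Y} (hτ : ∀ a, τ (w a) = w a) (k : ℤ) (a : Vt) :
    (τ ^ k) (w a) = w a := by
  let S : Subgroup (MulAut Y) :=
    { carrier := {σ | ∀ b, σ (w b) = w b}
      mul_mem' := fun {σ ρ} h1 h2 b => by
        rw [MulAut.mul_apply, h2 b, h1 b]
      one_mem' := fun a => rfl
      inv_mem' := fun {σ} h a => by
        rw [MulAut.inv_apply, MulEquiv.symm_apply_eq]
        exact (h a).symm }
  exact S.zpow_mem (x := τ) hτ k a

private theorem cen_tau {w : Vt →* Y} {τ : MulAut Y} (hτ : ∀ a, τ (w a) = w a) (k : ℤ) {x : Y}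
    (hx : Cen w x) : Cen w ((τ ^ k) x) := by
  intro a
  have h := (hx a).map (τ ^ k)
  rwa [tau_zpow hτ k a] at h

private theorem cen_conj {w : Vt →* Y} (hw : VG w) (a : Y) {c : Y} (hc : Cen w c) :
    Cen w (a * c * a⁻¹) := by
  intro b
  obtain ⟨b', hb'⟩ := hw.nrm a⁻¹ b
  rw [inv_inv] at hb'
  have e1 : w b = a * w b' * a⁻¹ := by rw [← hb']; group
  have h1 : c * w b' = w b' * c := hc b'
  show a * c * a⁻¹ * w b = w b * (a * c * a⁻¹)
  rw [e1]
  calc a * c * a⁻¹ * (a * w b' * a⁻¹) = a * (c * w b') * a⁻¹ := by group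
    _ = a * (w b' * c) * a⁻¹ := by rw [h1]
    _ = a * w b' * a⁻¹ * (a * c * a⁻¹) := by group

private theorem cen_tw {w : Vt →* Y} {τ : MulAut Y} (hw : VG w) (hτ : ∀ a, τ (w a) = w a) (k : ℤ)
    (a : Y) : Cen w (a * ((τ ^ k) a)⁻¹) := by
  intro b
  obtain ⟨b', hb'⟩ := hw.nrm a⁻¹ b
  rw [inv_inv] at hb'
  have e1 : w b = a * w b' * a⁻¹ := by rw [← hb']; group
  have e2 : w b = (τ ^ k) a * w b' * ((τ ^ k) a)⁻¹ := by
    have h := congrArg (τ ^ k) e1
    rwa [map_mul, map_mul, map_inv, tau_zpow hτ, tau_zpow hτ] at h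
  show a * ((τ ^ k) a)⁻¹ * w b = w b * (a * ((τ ^ k) a)⁻¹)
  calc a * ((τ ^ k) a)⁻¹ * w b = a * ((τ ^ k) a)⁻¹ * ((τ ^ k) a * w b' * ((τ ^ k) a)⁻¹) := by
        rw [← e2]
    _ = (a * w b' * a⁻¹) * (a * ((τ ^ k) a)⁻¹) := by group
    _ = w b * (a * ((τ ^ k) a)⁻¹) := by rw [← e1]

private abbrev HH (τ : MulAut Y) : Type :=
  SemidirectProduct Y (Multiplicative ℤ) (zpowersHom (MulAut Y) τ)

private theorem zp (τ : MulAut Y) (k : Multiplicative ℤ) (y : Y) :
    (zpowersHom (MulAut Y) τ) k y = (τ ^ (Multiplicative.toAdd k)) y := rfl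

private def GG (w : Vt →* Y) (τ : MulAut Y) (hτ : ∀ a, τ (w a) = w a) : Subgroup (HH τ) where
  carrier := {x | Cen w x.left}
  mul_mem' := fun {x y} hx hy => by
    show Cen w (x * y).left
    rw [SemidirectProduct.mul_left, zp]
    exact cen_mul hx (cen_tau hτ _ hy)
  one_mem' := cen_one
  inv_mem' := fun {x} hx => by
    show Cen w (x⁻¹).left
    rw [SemidirectProduct.inv_left, zp]
    exact cen_tau hτ _ (cen_inv hx)

private theorem mem_GG {w : Vt →* Y} {τ : MulAut Y} {hτ : ∀ a, τ (w a) = w a} {x : HH τ} :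
    x ∈ GG w τ hτ ↔ Cen w x.left := Iff.rfl

private theorem GG_normal (w : Vt →* Y) (hw : VG w) (τ : MulAut Y) (hτ : ∀ a, τ (w a) = w a) :
    (GG w τ hτ).Normal := by
  refine ⟨fun u hu x => ?_⟩
  rw [mem_GG] at hu ⊢
  have e : (x * u * x⁻¹).left = (x.left * (τ ^ (Multiplicative.toAdd x.right)) u.left * x.left⁻¹) *
      (x.left * ((τ ^ (Multiplicative.toAdd u.right)) x.left)⁻¹) := by
    rw [SemidirectProduct.mul_left, SemidirectProduct.mul_left, SemidirectProduct.inv_left,
      SemidirectProduct.mul_right, zp, zp, zp, ← MulAut.mul_apply, ← zpow_add]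
    have e2 : Multiplicative.toAdd (x.right * u.right) + Multiplicative.toAdd x.right⁻¹ =
        Multiplicative.toAdd u.right := by
      rw [toAdd_mul, toAdd_inv]
      ring
    rw [e2, map_inv]
    group
  rw [e]
  exact cen_mul (cen_conj hw _ (cen_tau hτ _ hu)) (cen_tw hw hτ _ _)

end GRPaux

/-- Row GRP. -/
theorem GRP (hOUT : OUT_stmt) : GRP_stmt := by
  obtain ⟨Y, _, w, τ, A, e₀, hw, hτ, hA, he0, he1, hgen, hconj, htr, hz⟩ := hOUT
  have hN : (GG w τ hτ).Normal := GG_normal w hw τ hτ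
  -- the elements
  have hl : ∀ u : Y, Cen w u → (SemidirectProduct.inl u : HH τ) ∈ GG w τ hτ := by
    intro u hu
    rw [mem_GG, SemidirectProduct.left_inl]
    exact hu
  let ι : ∀ u : Y, Cen w u → GG w τ hτ := fun u hu => ⟨SemidirectProduct.inl u, hl u hu⟩
  have hcw : ∀ a, Cen w (w a) := fun a b => by
    show w a * w b = w b * w a
    rw [← map_mul, ← map_mul, mul_comm]
  let t : GG w τ hτ := ⟨SemidirectProduct.inr (Multiplicative.ofAdd 1), by
    rw [mem_GG, SemidirectProduct.left_inr]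
    exact cen_one⟩
  let v : Vt →* GG w τ hτ :=
    { toFun := fun a => ι (w a) (hcw a)
      map_one' := Subtype.ext (by
        show (SemidirectProduct.inl (w 1) : HH τ) = 1
        rw [map_one, map_one])
      map_mul' := fun a b => Subtype.ext (by
        show (SemidirectProduct.inl (w (a * b)) : HH τ) = SemidirectProduct.inl (w a) *
          SemidirectProduct.inl (w b)
        rw [map_mul, map_mul]) }
  let π : GG w τ hτ →* Multiplicative ℤ := SemidirectProduct.rightHom.comp (GG w τ hτ).subtype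
  have hπ : ∀ g : GG w τ hτ, π g = (g : HH τ).right := fun g => rfl
  have hιmul : ∀ x y hx hy, ι x hx * ι y hy = ι (x * y) (cen_mul hx hy) := fun x y hx hy =>
    Subtype.ext (by
      show (SemidirectProduct.inl x : HH τ) * SemidirectProduct.inl y =
        SemidirectProduct.inl (x * y)
      rw [map_mul])
  have hιinv : ∀ x hx, (ι x hx)⁻¹ = ι x⁻¹ (cen_inv hx) := fun x hx =>
    Subtype.ext (by
      show (SemidirectProduct.inl x : HH τ)⁻¹ = SemidirectProduct.inl x⁻¹
      rw [map_inv])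
  have htk : ∀ k : ℤ, ((t ^ k : GG w τ hτ) : HH τ) =
      SemidirectProduct.inr (Multiplicative.ofAdd k) := by
    intro k
    rw [Subgroup.coe_zpow]
    show (SemidirectProduct.inr (Multiplicative.ofAdd 1) : HH τ) ^ k = _
    rw [← map_zpow]
    congr 1
    rw [← ofAdd_zsmul]
    simp
  have htconj : ∀ (k : ℤ) (x : Y) (hx : Cen w x), t ^ k * ι x hx * (t ^ k)⁻¹ =
      ι ((τ ^ k) x) (cen_tau hτ k hx) := by
    intro k x hx
    apply Subtype.ext
    rw [Subgroup.coe_mul, Subgroup.coe_mul, Subgroup.coe_inv, htk]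
    show SemidirectProduct.inr (Multiplicative.ofAdd k) * (SemidirectProduct.inl x : HH τ) *
      (SemidirectProduct.inr (Multiplicative.ofAdd k))⁻¹ = SemidirectProduct.inl ((τ ^ k) x)
    rw [← map_inv, ← SemidirectProduct.inl_aut]
    rfl
  -- decomposition of the elements
  have hdec : ∀ g : GG w τ hτ, g = ι (g : HH τ).left g.2 *
      t ^ (Multiplicative.toAdd (g : HH τ).right) := by
    intro g
    apply Subtype.ext
    rw [Subgroup.coe_mul, htk]
    show (g : HH τ) = SemidirectProduct.inl _ * SemidirectProduct.inr _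
    rw [ofAdd_toAdd, SemidirectProduct.inl_left_mul_inr_right]
  have hker : ∀ g : GG w τ hτ, π g = 1 → g = ι (g : HH τ).left g.2 := by
    intro g hg
    have h := hdec g
    rw [hπ] at hg
    rw [hg] at h
    simpa using h
  -- conjugacy in the kernel
  have cU : ∀ g : GG w τ hτ, π g = 1 → (∀ a, g ≠ v a) → IsConj (ι e₀ he0) g := by
    intro g hg hne
    have h1 := hker g hg
    have h2 : ∀ a, (g : HH τ).left ≠ w a := by
      intro a ha
      apply hne a
      rw [h1]
      apply Subtype.ext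
      show (SemidirectProduct.inl _ : HH τ) = SemidirectProduct.inl (w a)
      rw [ha]
    obtain ⟨c, k, hc, hck⟩ := hconj _ g.2 h2
    rw [isConj_iff]
    refine ⟨ι c hc * t ^ k, ?_⟩
    have e1 : ι c hc * t ^ k * ι e₀ he0 * (ι c hc * t ^ k)⁻¹ =
        ι c hc * (t ^ k * ι e₀ he0 * (t ^ k)⁻¹) * (ι c hc)⁻¹ := by group
    rw [e1, htconj k e₀ he0, hιinv c hc, hιmul _ _ hc (cen_tau hτ k he0),
      hιmul _ _ (cen_mul hc (cen_tau hτ k he0)) (cen_inv hc), h1]
    apply Subtype.ext
    show (SemidirectProduct.inl _ : HH τ) = SemidirectProduct.inl _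
    congr 1
  have cT1 : ∀ (n : ℕ) (g : GG w τ hτ), π g = Multiplicative.ofAdd ((n : ℤ) + 1) →
      IsConj (t ^ ((n : ℤ) + 1)) g := by
    intro n g hg
    obtain ⟨z, hz1, hz2⟩ := hz _ g.2 n
    rw [isConj_iff]
    refine ⟨ι z hz1, ?_⟩
    have h1 := hdec g
    rw [hπ] at hg
    rw [hg, toAdd_ofAdd] at h1
    have h2 : t ^ ((n : ℤ) + 1) * (ι z hz1)⁻¹ =
        ι ((τ ^ ((n : ℤ) + 1)) z⁻¹) (cen_tau hτ _ (cen_inv hz1)) * t ^ ((n : ℤ) + 1) := by
      rw [← htconj _ _ (cen_inv hz1), hιinv z hz1]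
      group
    rw [mul_assoc, h2, ← mul_assoc, hιmul _ _ hz1 (cen_tau hτ _ (cen_inv hz1))]
    refine Eq.trans ?_ h1.symm
    congr 1
    apply Subtype.ext
    show (SemidirectProduct.inl _ : HH τ) = SemidirectProduct.inl _
    congr 1
    have h3 : (τ ^ ((n : ℤ) + 1)) z = ((g : HH τ).left)⁻¹ * z := by
      have : (τ ^ ((n : ℤ) + 1)) = τ ^ (n + 1) := by
        rw [← zpow_natCast]
        push_cast
        rfl
      rw [this]
      exact hz2
    rw [map_inv, h3]
    group
  have cT2 : ∀ (k : ℤ), k ≠ 0 → ∀ g : GG w τ hτ, π g = Multiplicative.ofAdd k →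
      IsConj (t ^ k) g := by
    intro k hk g hg
    rcases lt_or_gt_of_ne hk with h | h
    · have h1 := cT1 (Int.toNat (-k - 1)) g⁻¹ (by
        rw [map_inv, hg, ← ofAdd_neg]
        congr 1
        omega)
      have e1 : ((Int.toNat (-k - 1) : ℕ) : ℤ) + 1 = -k := by omega
      rw [e1, zpow_neg] at h1
      rw [isConj_iff] at h1 ⊢
      obtain ⟨c, hc⟩ := h1
      refine ⟨c, ?_⟩
      have := congrArg (·⁻¹) hc
      simp only [inv_inv] at this
      rw [← this]
      group
    · have h1 := cT1 (Int.toNat (k - 1)) g (by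
        rw [hg]
        congr 1
        omega)
      have e1 : ((Int.toNat (k - 1) : ℕ) : ℤ) + 1 = k := by omega
      rwa [e1] at h1
  -- the element z
  let a₀ : Vt := Multiplicative.ofAdd 1
  have ha0 : a₀ ≠ 1 := by
    intro h
    have : (1 : ℚ) = 0 := congrArg Multiplicative.toAdd h
    norm_num at this
  obtain ⟨z, hz1, hz2⟩ := hz (w a₀)⁻¹ (cen_inv (hcw a₀)) 0
  rw [inv_inv, zero_add, pow_one] at hz2
  have hzV : ∀ a, z ≠ w a := by
    intro a ha
    rw [ha, hτ a] at hz2
    have : w a₀ = 1 := by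
      have h3 := hz2.symm
      rwa [mul_eq_right] at h3
    exact ha0 (hw.inj (this.trans (map_one w).symm))
  have hzV2 : ∀ a, z * z ≠ w a := by
    intro a ha
    obtain ⟨b, hb⟩ := hw.tf z hz1 2 (by norm_num) ⟨a, by rw [pow_two, ha]⟩
    exact hzV b hb
  have hinl : ∀ x y (hx : Cen w x) (hy : Cen w y), ι x hx = ι y hy → x = y := by
    intro x y hx hy h
    have h1 : (SemidirectProduct.inl x : HH τ) = SemidirectProduct.inl y := congrArg Subtype.val h
    exact SemidirectProduct.inl_injective h1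
  have hιπ : ∀ x hx, π (ι x hx) = 1 := fun x hx => rfl
  have hc1 : IsConj (ι e₀ he0) (ι z hz1) := cU _ (hιπ _ hz1)
    (fun a h => hzV a (hinl _ _ hz1 (hcw a) h))
  have hc2 : IsConj (ι e₀ he0) (ι z hz1 ^ 2) := by
    refine cU _ (by rw [map_pow, hιπ _ hz1, one_pow]) (fun a h => ?_)
    rw [pow_two, hιmul _ _ hz1 hz1] at h
    exact hzV2 a (hinl _ _ (cen_mul hz1 hz1) (hcw a) h)
  obtain ⟨s, hs⟩ := isConj_iff.1 (hc1.symm.trans hc2)
  refine ⟨GG w τ hτ, inferInstance, v, π, t, ι z hz1, s, ι e₀ he0, a₀, ?_⟩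
  refine
    { fg := ?_
      inj := fun a b h => hw.inj (hinl _ _ (hcw a) (hcw b) h)
      cen := ?_
      piv := fun a => hιπ _ (hcw a)
      pit := rfl
      cU := cU
      cT := ?_
      aut := ?_
      e1 := hιπ _ he0
      e2 := fun a h => he1 a (hinl _ _ he0 (hcw a) h)
      z1 := hιπ _ hz1
      zz := hs
      tz := ?_
      a0 := ha0 }
  · -- finitely generated
    classical
    let S : Set (GG w τ hτ) := {t} ∪ {g | ∃ a, ∃ h : a ∈ A, g = ι a (hA a h)}
    have hSf : S.Finite := by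
      refine (Set.finite_singleton t).union ?_
      have : {g : GG w τ hτ | ∃ a, ∃ h : a ∈ A, g = ι a (hA a h)} =
          Set.range (fun a : A => ι a.1 (hA a.1 a.2)) := by
        ext g
        constructor
        · rintro ⟨a, h, rfl⟩
          exact ⟨⟨a, h⟩, rfl⟩
        · rintro ⟨⟨a, h⟩, rfl⟩
          exact ⟨a, h, rfl⟩
      rw [this]
      exact Set.finite_range _
    have ht : t ∈ Subgroup.closure S := Subgroup.subset_closure (Or.inl rfl)
    have key : ∀ u ∈ Subgroup.closure {x | ∃ k : ℤ, ∃ a ∈ A, x = (τ ^ k) a},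
        ∃ h : Cen w u, ι u h ∈ Subgroup.closure S := by
      intro u hu
      induction hu using Subgroup.closure_induction with
      | mem x hx =>
        obtain ⟨k, a, ha, rfl⟩ := hx
        refine ⟨cen_tau hτ k (hA a ha), ?_⟩
        rw [← htconj k a (hA a ha)]
        exact mul_mem (mul_mem (zpow_mem ht k) (Subgroup.subset_closure (Or.inr ⟨a, ha, rfl⟩)))
          (inv_mem (zpow_mem ht k))
      | one =>
        refine ⟨cen_one, ?_⟩
        have : ι 1 cen_one = 1 := Subtype.ext (by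
          show (SemidirectProduct.inl 1 : HH τ) = 1
          rw [map_one])
        rw [this]
        exact one_mem _
      | mul x y _ _ hx hy =>
        obtain ⟨hx1, hx2⟩ := hx
        obtain ⟨hy1, hy2⟩ := hy
        refine ⟨cen_mul hx1 hy1, ?_⟩
        rw [← hιmul x y hx1 hy1]
        exact mul_mem hx2 hy2
      | inv x _ hx =>
        obtain ⟨hx1, hx2⟩ := hx
        refine ⟨cen_inv hx1, ?_⟩
        rw [← hιinv x hx1]
        exact inv_mem hx2
    refine ⟨⟨hSf.toFinset, ?_⟩⟩
    rw [Set.Finite.coe_toFinset, eq_top_iff]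
    intro g _
    rw [hdec g]
    obtain ⟨h1, h2⟩ := key _ (hgen _ g.2)
    exact mul_mem h2 (zpow_mem ht _)
  · -- central
    intro a g
    have hg : Commute (v a) (ι (g : HH τ).left g.2) := by
      show ι (w a) (hcw a) * ι (g : HH τ).left g.2 = ι (g : HH τ).left g.2 * ι (w a) (hcw a)
      rw [hιmul _ _ (hcw a) g.2, hιmul _ _ g.2 (hcw a)]
      apply Subtype.ext
      show (SemidirectProduct.inl _ : HH τ) = SemidirectProduct.inl _
      congr 1
      exact (g.2 a).symm
    have ht : Commute (v a) t := by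
      have h1 := htconj 1 (w a) (hcw a)
      rw [zpow_one] at h1
      have h2 : ι ((τ ^ (1 : ℤ)) (w a)) (cen_tau hτ 1 (hcw a)) = v a := by
        apply Subtype.ext
        show (SemidirectProduct.inl _ : HH τ) = SemidirectProduct.inl _
        congr 1
        rw [zpow_one]
        exact hτ a
      rw [h2, mul_inv_eq_iff_eq_mul] at h1
      exact h1.symm
    rw [hdec g]
    exact hg.mul_right (ht.zpow_right _)
  · -- conjugacy outside of the kernel
    intro g h hgh hg
    have hk : Multiplicative.toAdd (π g) ≠ 0 := fun h0 => hg (by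
      rw [← ofAdd_toAdd (π g), h0]
      rfl)
    exact (cT2 _ hk g (ofAdd_toAdd _).symm).symm.trans
      (cT2 _ hk h (by rw [ofAdd_toAdd]; exact hgh.symm))
  · -- automorphisms
    intro a b ha hb
    obtain ⟨x, hx⟩ := htr a b ha hb
    refine ⟨MulAut.conjNormal (SemidirectProduct.inl x : HH τ), ?_⟩
    apply Subtype.ext
    rw [MulAut.conjNormal_apply]
    show (SemidirectProduct.inl x : HH τ) * SemidirectProduct.inl (w a) *
      (SemidirectProduct.inl x)⁻¹ = SemidirectProduct.inl (w b)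
    rw [← map_inv, ← map_mul, ← map_mul, hx]
  · -- tz
    have h1 := htconj 1 z hz1
    rw [zpow_one] at h1
    rw [h1]
    show _ = ι (w a₀) (hcw a₀) * ι z hz1
    rw [hιmul _ _ (hcw a₀) hz1]
    apply Subtype.ext
    show (SemidirectProduct.inl _ : HH τ) = SemidirectProduct.inl _
    congr 1

end Pool.Agent.AGR
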