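import Pool.Agent.helper15.AGR.NF
import Pool.Agent.helper22.AGR.EX
import Pool.Agent.helper35.AGR.LET
import Pool.Agent.helper25.AGR.SA
import Pool.Agent.helper32.AGR.NRM
import Pool.Agent.helper16.AGR.TF
import Pool.Agent.helper21.AGR.VGA
import Pool.Agent.helper89.AGR.CNT
import Pool.Agent.helper3.AGR.CJ
import Pool.Agent.helper34.AGR.PM
import Pool.Agent.helper99.AGR.FT
import Pool.Agent.helper70.AGR.FA
import Pool.Agent.helper5.AGR.VGW
import Pool.Agent.helper4.AGR.T1
import Pool.Agent.helper67.AGR.T2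
import Pool.Agent.helper87.AGR.A1
import Pool.Agent.helper27.AGR.A2
import Pool.Agent.helper99.AGR.PHI
import Pool.Agent.helper25.AGR.SB
import Pool.Agent.helper44.AGR.SC
import Pool.Agent.helper25.AGR.S0
import Pool.Agent.helper79.AGR.DL
import Pool.Agent.helper74.AGR.LIM
import Pool.Agent.helper83.AGR.OUT
import Pool.Agent.helper48.AGR.GRP
import Pool.Agent.helper56.AGR.BAL
import Pool.Agent.helper71.AGR.CUP
import Pool.Agent.helper2.AGR.CLO
import Pool.Agent.helper55.AGR.AUP
import Pool.Agent.helper48.AGR.ALO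
import Pool.Agent.helper13.AGR.FIN

/-!
# AGR: assembly (MP_def0df_al)
-/

set_option autoImplicit false

namespace Pool.Agent.AGR

/-- The theorem. -/
theorem main : FIN_stmt :=
  have hSA := SA NF (EX LET)
  have hVGA := VGA NRM (TF NF (EX LET) LET NRM)
  have hVGW := VGW hVGA
  have hFA := FA hSA
  have hFT := FT hSA
  FIN (GRP (OUT (S0 SB SC) (PHI (A1 hFA hVGW CNT (CJ NF (EX LET) LET)) (A2 hFA hVGW CNT PM)
    (T1 hFT hVGA CNT) (T2 hFT hVGA CNT)) (LIM DL))) BAL (CUP BAL) (CLO BAL) AUP (ALO BAL)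

end Pool.Agent.AGR
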