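import Pool.Agent.helper48.AGR.Defs

/-!
# Exponential conjugacy growth, linear automorphic growth (MP_def0df_al): row statements

THEOREM (FIN). There is a finitely generated group `G` such that for every finite generating set the
conjugacy growth is exponential and the automorphic growth is polynomial (linear).

PLAN. `V` is the additive group of the rationals (`Vt`). A system (`Sys`) is a pair of injective
homomorphisms `p, q : Γ → X` (the partial automorphism `τ = q ∘ p⁻¹` of `X`), equal on `V`, with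
elements `e i` free over the domain and `f i` free over the range, relative to `V` (`Free`).
Steps: T1, T2 make `τ` total (amalgam of two copies of `X` over `Γ`); A2 adds letters with
`τ^(k+1) z = u⁻¹ z`; A1 makes every `g` in `U = C(V)`, `g ∉ V`, an element of the group generated by
the `e`, `f` under `τ`, by `τ (e i) = y g y⁻¹`, `τ y = f i'` with a new letter `y`. The limit `Y`
(OUT) gives the group `G = C_Y(V) ⋊ ⟨τ⟩` (GRP).

HOW TO USE. `Red f g a b n x` are the reduced words of `Am f g`. `W v J = Γ *_V (V × F(J))` with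
`W.g`, `W.y`, `W.lift`, `W.hom_ext`, `W.comm`. Proofs should use only these and the API in Defs.lean
(never unfold `Am`, except in rows NF and EX).
-/

set_option autoImplicit false

namespace Pool.Agent.AGR

open Monoid Function

/-! ## Part A: amalgams -/

/-- NF. Normal form theorem. PROOF. By induction on `Red` there is a list `l` of letters
`Σ b, Fam L R b`, chain of alternating types, no letter in the range of `fmap f g`, of length `n`,
with first type `a` and last type `b`, and `x = ofCoprodI` of the product; it gives a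
`CoprodI.Word` (letters `≠ 1`) which is `PushoutI.Reduced` and not empty; use
`Monoid.PushoutI.Reduced.eq_empty_of_mem_range` (`inl (f c)` is `base c` by
`PushoutI.of_apply_eq_base`). -/
def NF_stmt : Prop := ∀ (L R C : Type) [Group L] [Group R] [Group C] (f : C →* L) (g : C →* R),
  Injective f → Injective g → ∀ (a b : Bool) (n : ℕ) (x : Am f g), Red f g a b n x →
    ∀ c, x ≠ inl (f c)

/-- EX. Every element is in `C` or has a reduced word. PROOF. By `am_induction` show that the set of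
these elements is closed under left multiplication by letters: by induction on `n`, for a letter `s`
(or an element of `C`) and `Red a b n x`: if the types differ then `Red.app`; if `x` starts with the
type of `s`: LET (decomposition `x = y * z` with first letter `y`): `s y` is a letter or in `C`,
and `C` is absorbed (LET). Or use `Monoid.PushoutI.NormalWord` (`NormalWord.equiv`, `consRecOn`). Then
products of two elements by induction on the first. -/
def EX_stmt : Prop := ∀ (L R C : Type) [Group L] [Group R] [Group C] (f : C →* L) (g : C →* R),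
  Injective f → Injective g → ∀ x : Am f g,
    (∃ c, x = inl (f c)) ∨ ∃ (a b : Bool) (n : ℕ), Red f g a b n x

/-- LET. Facts on reduced words, all by induction on `Red`; `glue` moves elements of `C`. -/
def LET_stmt : Prop := ∀ (L R C : Type) [Group L] [Group R] [Group C] (f : C →* L) (g : C →* R),
  (∀ (a b : Bool) (n : ℕ) (x : Am f g), Red f g a b n x → 1 ≤ n) ∧
  (∀ (a b : Bool) (x : Am f g), Red f g a b 1 x → a = b ∧
    ((a = false ∧ ∃ l, l ∉ f.range ∧ x = inl l) ∨ (a = true ∧ ∃ r, r ∉ g.range ∧ x = inr r))) ∧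
  (∀ (a b : Bool) (n : ℕ) (x : Am f g) (c : C), Red f g a b n x →
    Red f g a b n (x * inl (f c)) ∧ Red f g a b n (inl (f c) * x)) ∧
  (∀ (a b : Bool) (n : ℕ) (x : Am f g), Red f g a b n x → 2 ≤ n →
    ∃ y z, x = y * z ∧ Red f g a (!b) (n - 1) y ∧ Red f g b b 1 z) ∧
  (∀ (a b : Bool) (n : ℕ) (x : Am f g), Red f g a b n x → 2 ≤ n →
    ∃ y z, x = y * z ∧ Red f g a a 1 y ∧ Red f g (!a) b (n - 1) z) ∧
  (∀ (a : Bool) (x y : Am f g), Red f g a a 1 x → Red f g a a 1 y →
    (∃ c, x * y = inl (f c)) ∨ Red f g a a 1 (x * y)) ∧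
  (∀ (a b : Bool) (n : ℕ) (x : Am f g), Red f g a b n x → Red f g b a n x⁻¹)

/-- SA. Subamalgams inject (from NF, EX). PROOF. Let `F x = 1`. By EX `x = inl (f' c)`, then
`inl (f c) = 1`, `c = 1` (`inl_injective`), or `Red f' g' a b n x`; then `Red f g a b n (F x)` by
induction (`l y ∉ f.range` if `y ∉ f'.range`: `l y = f c = l (f' c)` gives `y = f' c`), contradiction
to NF with `c = 1`. -/
def SA_stmt : Prop := ∀ (L R C L' R' : Type) [Group L] [Group R] [Group C] [Group L'] [Group R']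
  (f : C →* L) (g : C →* R) (f' : C →* L') (g' : C →* R') (l : L' →* L) (r : R' →* R),
  Injective f → Injective g → Injective l → Injective r → (∀ c, l (f' c) = f c) →
  (∀ c, r (g' c) = g c) → ∀ F : Am f' g' →* Am f g, (∀ x, F (inl x) = inl (l x)) →
  (∀ x, F (inr x) = inr (r x)) → Injective F

/-- NRM. `V` is normal in the amalgam (`am_induction`; on `inr x` use `glue`). -/
def NRM_stmt : Prop := ∀ (L R C : Type) [Group L] [Group R] [Group C] (f : C →* L) (g : C →* R)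
  (v : Vt →* C), VG (f.comp v) → VG (g.comp v) → ∀ (x : Am f g) (a : Vt),
    ∃ b : Vt, x * inl (f (v a)) * x⁻¹ = inl (f (v b))

/-- TF. Roots in amalgams (from NF, EX, LET, NRM). PROOF. Strong induction on `n` for `Red a b n x`
(EX; elements of `C` are in the left factor). If `x = inl y`: `y` centralises `V` and `y^m = f (v a)` by
`inl_injective`, use `VG.tf`; same for `inr`. `n = 1`: LET, this case. `n ≥ 2` and `a ≠ b`: all powers
`x^m`, `m ≥ 1`, are reduced (`Red.app`), contradiction to NF. `n ≥ 2` and `a = b` (so `n ≥ 3`):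
`x = s * x'` with first letter `s`, `y = s⁻¹ x s = x' * s`, `x' = x'' * s'` with last letter `s'`
of the same type; `s' s` is a letter and `Red (!a) a (n-1) y`, or it is in `C` and
`Red (!a) (!a) (n-2) y` (absorption). `y` centralises `V` and `y^m` is in `V` by NRM (conjugate by
`s⁻¹`), so `y` is in `V` by the induction hypothesis, and `x = s y s⁻¹` is in `V` by NRM. -/
def TF_stmt : Prop := ∀ (L R C : Type) [Group L] [Group R] [Group C] (f : C →* L) (g : C →* R)
  (v : Vt →* C), Injective f → Injective g → VG (f.comp v) → VG (g.comp v) →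
  ∀ x : Am f g, Cen ((inl : L →* Am f g).comp (f.comp v)) x → ∀ n : ℕ, n ≠ 0 →
    (∃ a, x ^ n = inl (f (v a))) → ∃ a, x = inl (f (v a))

/-- VGA (from NRM, TF, `inl_injective`). -/
def VGA_stmt : Prop := ∀ (L R C : Type) [Group L] [Group R] [Group C] (f : C →* L) (g : C →* R)
  (v : Vt →* C), Injective f → Injective g → VG (f.comp v) → VG (g.comp v) →
  VG ((inl : L →* Am f g).comp (f.comp v))

/-- CNT. Countable factors give a countable amalgam. PROOF. The map from `List (L ⊕ R)`, product of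
the images, is surjective (`am_induction`). -/
def CNT_stmt : Prop := ∀ (L R C : Type) [Group L] [Group R] [Group C] [Countable L] [Countable R]
  (f : C →* L) (g : C →* R), Countable (Am f g)

/-- CJ (from NF, EX, LET). The map that fixes `X` and sends the letter `y j` to `y j (h j) (y j)⁻¹`.
PROOF. `F = W.lift W.g (fun j => y j * g (h j) * (y j)⁻¹)`. `(h j)^m ∉ V` for all integers `m ≠ 0` by
`VG.tf`. Claim 1: if `l = (j, b) :: l'` is a reduced list (`FreeGroup.IsReduced`) then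
`F (inr (1, FreeGroup.mk l)) = y j * g ((h j)^m) * z` with `m ≠ 0`, `0 < m ↔ b = true`, and
`Red true true k z` for some `k`. Induction on the list: for one letter `z = (y j)⁻¹`; prepending
`(j', b')`: if `j' = j` then `b' = b` and `m` becomes `m ± 1`; if `j' ≠ j` then
`y j' * g ((h j')^(±1)) * z'` with `z' = ((y j')⁻¹ y j) * g ((h j)^m) * z` reduced. So
`F (inr (1, u))` has a reduced word of type `true, true` for `u ≠ 1`, and so has `F (inr (a, u))`
(absorb `inr (a, 1) = inl (w a)`). Claim 2: by induction `Red a b n x` implies `Red a b n' (F x)`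
for some `n'`. Now EX and NF: if `F x = 1` then `x = inl (w c)`, `F x = x`. -/
def CJ_stmt : Prop := ∀ (X : Type) [Group X] (w : Vt →* X) (J : Type) (h : J → X), VG w →
  (∀ j, Cen w (h j)) → (∀ j a, h j ≠ w a) → ∃ F : W w J →* W w J, Injective F ∧
    (∀ x, F (W.g x) = W.g x) ∧ ∀ j, F (W.y j) = W.y j * W.g (h j) * (W.y j)⁻¹

/-- PM. PROOF. `F = W.lift W.g (fun j => g (h j) * y (π j))`; the inverse is
`W.lift W.g (fun j => (g (h (π⁻¹ j)))⁻¹ * y (π⁻¹ j))` (check with `W.hom_ext` that the composition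
inverse after `F` is the identity). -/
def PM_stmt : Prop := ∀ (X : Type) [Group X] (w : Vt →* X) (J : Type) (π : Equiv.Perm J) (h : J → X),
  (∀ j, Cen w (h j)) → ∃ F : W w J →* W w J, Injective F ∧
    (∀ x, F (W.g x) = W.g x) ∧ ∀ j, F (W.y j) = W.g (h j) * W.y (π j)

/-! ## Part B: freeness -/

/-- FT (from SA). Freeness after the totality step: `P = Am q p`, `inl (q γ) = inr (p γ)`.
PROOF of the first part. `b = W.lift p e : W v J → X` is injective. Commutation: `inl (p (v a)) =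
inl (q (v a)) = inr (p (v a))`. Let `P' = Am q (W.g : Γ →* W v J)`. `F = lift inl (inr.comp b) : P' →
Am q p` is injective by SA (`l = id`, `r = b`). `h1 = W.lift inl (fun j => inr (W.y j)) :
W (p.comp v) J → P'` has the left inverse `lift W.g (W.lift (W.g.comp q) W.y)` (check with `W.hom_ext`),
so it is injective, and `W.lift inl (fun j => inr (e j)) = F.comp h1` (`W.hom_ext`). Second part: the
same with `b' = W.lift q f`, `P'' = Am (W.g : Γ →* W v J) p`, `l = b'`, `r = id`. -/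
def FT_stmt : Prop := ∀ (Γ X : Type) [Group Γ] [Group X] (v : Vt →* Γ) (p q : Γ →* X),
  Injective p → Injective q → (∀ a, p (v a) = q (v a)) →
  (∀ (J : Type) (e : J → X), Free v p e →
    Free (p.comp v) (inl : X →* Am q p) (fun j => (inr (e j) : Am q p))) ∧
  (∀ (J : Type) (f : J → X), Free v q f →
    Free (p.comp v) (inr : X →* Am q p) (fun j => (inl (f j) : Am q p)))

/-- FA (from SA). Freeness after adding letters. PROOF. The composition `Θ` of the injective
homomorphisms: M1 `: W (W.g.comp v) K → W v (J₁ ⊕ K)`, `g (g γ) ↦ g γ`, `g (y j) ↦ y (inl j)`,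
`y k ↦ y (inr k)` (has a left inverse); M2 `: W v (J₁ ⊕ K) → W v (I ⊕ J)`, `y x ↦ y (s x)` (SA with
`l = id`, `r = id × FreeGroup.map s`, `FreeGroup.map` of an injective map is injective); M3
`: W v (I ⊕ J) → W (W.g.comp v : Vt →* W v I) J` (has a left inverse, of the form M1); M4
`: W (W.g.comp v : Vt →* W v I) J → W w J`, `g β ↦ g (W.lift r e β)`, `y j ↦ y j` (SA with
`l = W.lift r e`, `r = id`); `F`. Take `R = Θ.comp W.g` (injective by `inl_injective`), and
`W.lift R _ = Θ` by `W.hom_ext`. -/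
def FA_stmt : Prop := ∀ (Γ X : Type) [Group Γ] [Group X] (v : Vt →* Γ) (w : Vt →* X) (r : Γ →* X)
  (I J J₁ K : Type) (e : I → X), Injective v → Injective r → (∀ a, r (v a) = w a) → Free v r e →
  ∀ s : J₁ ⊕ K → I ⊕ J, Injective s → ∀ F : W w J →* W w J, Injective F →
  (∀ x, F (W.g x) = W.g x) →
  ∃ R : W v J₁ →* W w J, Injective R ∧ (∀ γ, R (W.g γ) = W.g (r γ)) ∧
    (∀ j, R (W.y j) = F (Sum.elim (fun i => W.g (e i)) W.y (s (Sum.inl j)))) ∧
    Free ((W.g : Γ →* W v J₁).comp v) R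
      (fun k => F (Sum.elim (fun i => W.g (e i)) W.y (s (Sum.inr k))))

/-! ## Part C: systems -/

/-- VGW (from VGA). PROOF. VGA with `f = w`, `g = MonoidHom.inl`, `v = id`; `VG` for `Vt × FreeGroup J`:
`(a, u)^n = (b, 1)` gives `u^n = 1`, `u = 1` (instance `IsMulTorsionFree (FreeGroup J)`). -/
def VGW_stmt : Prop := ∀ (X : Type) [Group X] (w : Vt →* X) (J : Type), VG w →
  VG ((W.g : X →* W w J).comp w)

/-- T1 (from FT, VGA, CNT). Totality of the domain: `X⁺ = Am q p`, `Γ⁺ = X`, `v⁺ = w`, `p⁺ = inl`,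
`q⁺ = inr`, `e⁺ = inr ∘ e`, `f⁺ = inl ∘ f`; morphism `j = inl`, `c = p`. -/
def T1_stmt : Prop := ∀ S : Sys, ∃ (T : Sys) (m : Mor S T),
  (∀ x : S.X, ∃ γ, T.p γ = m.j x) ∧
  (∀ i, ∃ i' γ, T.p γ = m.j (S.e i') ∧ T.q γ = T.e i) ∧ (∀ i, ∃ i', T.f i = m.j (S.f i'))

/-- T2 (from FT, VGA, CNT). Totality of the range: the same system as in T1 with the morphism `j = inr`,
`c = q`. -/
def T2_stmt : Prop := ∀ S : Sys, ∃ (T : Sys) (m : Mor S T),
  (∀ x : S.X, ∃ γ, T.q γ = m.j x) ∧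
  (∀ i, ∃ i', T.e i = m.j (S.e i')) ∧ (∀ i, ∃ i' γ, T.q γ = m.j (S.f i') ∧ T.p γ = T.f i)

/-- The first property of the step. -/
def P1 (S T : Sys) (m : Mor S T) : Prop :=
  ∀ g : S.X, Cen S.w g → (∀ a, g ≠ S.w a) → ∃ (i i' : ℕ) (y : T.X) (γ₁ γ₂ : T.Γ), Cen T.w y ∧
    T.p γ₁ = m.j (S.e i) ∧ T.q γ₁ = y * m.j g * y⁻¹ ∧ T.p γ₂ = y ∧ T.q γ₂ = m.j (S.f i')

/-- The second property of the step: `τ^(k+1) (z 0) = u⁻¹ (z 0)`. -/
def P2 (S T : Sys) (m : Mor S T) : Prop :=
  ∀ u : S.X, Cen S.w u → ∀ k : ℕ, ∃ (z : ℕ → T.X) (γ : ℕ → T.Γ), (∀ i, Cen T.w (z i)) ∧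
    (∀ i ≤ k, T.p (γ i) = z i ∧ T.q (γ i) = z (i + 1)) ∧ z (k + 1) = (m.j u)⁻¹ * z 0

/-- A1 (from FA, VGW, CNT, CJ). PROOF. `J = {g : S.X // Cen S.w g ∧ ∀ a, g ≠ S.w a}` (countable,
`n : J → ℕ` injective), `J₁ = J ⊕ J`, `I = K = ℕ`, `X⁺ = W S.w J`, `Γ⁺ = W S.v J₁`, `v⁺ = W.g.comp v`.
`p⁺, e⁺` from FA with `r = p`, `F = id` and `s : inl (inl g) ↦ inr g, inl (inr g) ↦ inl (2 (n g)),
inr k ↦ inl (2 k + 1)`; `q⁺, f⁺` from FA with `r = q`, `F` from CJ and `s : inl (inl g) ↦ inl (2 (n g)),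
inl (inr g) ↦ inr g, inr k ↦ inl (2 k + 1)`. Morphism `j = W.g`, `c = W.g`. For `g`: `y = W.y g`,
`γ₁ = W.y (inr g)`, `γ₂ = W.y (inl g)`, `i = i' = 2 (n g)`. -/
def A1_stmt : Prop := ∀ S : Sys, ∃ (T : Sys) (m : Mor S T), P1 S T m ∧
  (∀ i, ∃ i', T.e i = m.j (S.e i')) ∧ (∀ i, ∃ i', T.f i = m.j (S.f i'))

/-- A2 (from FA, VGW, CNT, PM). PROOF. `J = J₁ = {u : S.X // Cen S.w u} × (Σ k : ℕ, Fin (k + 1))`,
`s : inl j ↦ inr j, inr k ↦ inl k`, `F = id` for `p`, and for `q` from PM with the permutation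
`(u, k, i) ↦ (u, k, i + 1)` and `h (u, k, i) = u⁻¹` if `i = k` (last), `1` otherwise. `z i = W.y (u, k, i)`
for `i ≤ k`, `z i = (g u)⁻¹ * z 0` for `i > k`. -/
def A2_stmt : Prop := ∀ S : Sys, ∃ (T : Sys) (m : Mor S T), P2 S T m ∧
  (∀ i, ∃ i', T.e i = m.j (S.e i')) ∧ (∀ i, ∃ i', T.f i = m.j (S.f i'))

/-- All properties of one round. -/
def Phi (S T : Sys) (m : Mor S T) : Prop :=
  (∀ x : S.X, (∃ γ, T.p γ = m.j x) ∧ ∃ γ, T.q γ = m.j x) ∧ P1 S T m ∧ P2 S T m ∧
  (∀ i, ∃ i' γ, T.p γ = m.j (S.e i') ∧ T.q γ = T.e i) ∧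
  (∀ i, ∃ i' γ, T.q γ = m.j (S.f i') ∧ T.p γ = T.f i)

/-- PHI (from A1, A2, T1, T2): the composition of the four morphisms, in this order (`m.j` maps
`S.w a` to `T.w a` and is injective, so it preserves `Cen`). -/
def PHI_stmt : Prop := ∀ S : Sys, ∃ (T : Sys) (m : Mor S T), Phi S T m

/-- SB. A group with a normal subgroup `V`, self-centralising, with transitive action on `V` minus `1`.
PROOF. The affine group `{x ↦ r x + b}` of the rationals, for instance as a subgroup of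
`Equiv.Perm ℚ`, or `Multiplicative ℚ ⋊ ℚˣ`. -/
def SB_stmt : Prop := ∃ (B : Type) (_ : Group B) (v : Vt →* B), Countable B ∧ Injective v ∧
  (∀ (x : B) (a : Vt), ∃ b : Vt, x * v a * x⁻¹ = v b) ∧ (∀ x, Cen v x → ∃ a, x = v a) ∧
  ∀ a b : Vt, a ≠ 1 → b ≠ 1 → ∃ x, x * v a * x⁻¹ = v b

/-- SC. A finitely generated torsion free group that contains a free group of infinite rank with
conjugate generators. PROOF. `FreeGroup ℤ ⋊ Multiplicative ℤ` for the shift (`FreeGroup.freeGroupCongr`),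
generated by `of 0` and the shift; `IsMulTorsionFree (FreeGroup ℤ)` is in Mathlib. -/
def SC_stmt : Prop := ∃ (A : Type) (_ : Group A) (φ : FreeGroup ℕ →* A) (E : Finset A),
  Countable A ∧ Injective φ ∧ (∀ (x : A) (n : ℕ), n ≠ 0 → x ^ n = 1 → x = 1) ∧
  (∀ i, φ (FreeGroup.of i) ∈ Subgroup.closure (E : Set A)) ∧
  ∀ i, ∃ c ∈ Subgroup.closure (E : Set A), c * φ (FreeGroup.of 0) * c⁻¹ = φ (FreeGroup.of i)

/-- S0 (from SB, SC). The first system: `X = B × A`, `Γ = Vt`, `v = id`, `p = q = inl ∘ v`,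
`e i = f i = (1, φ (of i))`. `Free`: every element of `W id ℕ` is `inr (a, u)` (`am_induction`), mapped to
`(v a, φ u)`. `VG`: `(b, x)` in `Cen` gives `b = v a`; `(b, x)^n = (v c, 1)` gives `x = 1`. -/
def S0_stmt : Prop := ∃ (S : Sys) (A : Finset S.X), (∀ a ∈ A, Cen S.w a) ∧
  (∀ i a, S.e i ≠ S.w a) ∧
  (∀ i, S.e i ∈ Subgroup.closure (A : Set S.X) ∧ S.f i ∈ Subgroup.closure (A : Set S.X)) ∧
  (∀ i, ∃ c ∈ Subgroup.closure (A : Set S.X), c * S.e 0 * c⁻¹ = S.e i) ∧
  ∀ a b : Vt, a ≠ 1 → b ≠ 1 → ∃ x, x * S.w a * x⁻¹ = S.w b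

/-- DL. The union of a chain of groups. PROOF. Mathlib `DirectLimit` (Algebra/Colimit/DirectLimit), or the
quotient of the sigma type, or search the library under Pool/Agent (done in other projects). -/
def DL_stmt : Prop := ∀ (X : ℕ → Type) [∀ n, Group (X n)] (j : ∀ n, X n →* X (n + 1)),
  (∀ n, Injective (j n)) → ∃ (Y : Type) (_ : Group Y) (ι : ∀ n, X n →* Y),
    (∀ n, Injective (ι n)) ∧ (∀ n x, ι (n + 1) (j n x) = ι n x) ∧ ∀ y, ∃ n x, ι n x = y

/-- LIM (from DL). PROOF. `Y`, `ι` from DL for the groups `(S n).X`. Let `R y y'` be the relation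
`∃ n γ, ι n (p γ) = y ∧ ι n (q γ) = y'`. Two pairs can be moved to the same level (`m.c`, `jp`, `jq`).
`R` is total on both sides by hypothesis, functional on both sides by injectivity of `p`, `q`, `ι`,
and multiplicative. So it is the graph of an automorphism. -/
def LIM_stmt : Prop := ∀ (S : ℕ → Sys) (m : ∀ n, Mor (S n) (S (n + 1))),
  (∀ n (x : (S n).X), (∃ γ, (S (n + 1)).p γ = (m n).j x) ∧ ∃ γ, (S (n + 1)).q γ = (m n).j x) →
  ∃ (Y : Type) (_ : Group Y) (ι : ∀ n, (S n).X →* Y) (τ : MulAut Y), (∀ n, Injective (ι n)) ∧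
    (∀ n x, ι (n + 1) ((m n).j x) = ι n x) ∧ (∀ y, ∃ n x, ι n x = y) ∧
    ∀ n γ, τ (ι n ((S n).p γ)) = ι n ((S n).q γ)

/-- OUT (from S0, PHI, LIM). PROOF. Chain `S n` from S0 by PHI (choice), `Y, ι, τ` from LIM,
`w = (ι 0).comp (S 0).w` (`= (ι n).comp (S n).w` for all `n`), `A` and `e₀ = ι 0 (e 0)` from level 0.
`Cen` in `(S n).X` and in `Y` agree. `K` = the closure of the `τ^k a`, `τ K = K`. By induction on `n`:
`ι n (e i)`, `ι n (f i)` are in `K` (`τ (ι n (e i')) = ι (n+1) (e i)`, `τ (ι (n+1) (f i)) = ι n (f i')`),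
and `ι n (e i) = c * (τ^k) e₀ * c⁻¹` with `Cen w c`. For `u` at level `n`, `Cen w u`, `u ∉ V`: P1 gives
`τ (ι n (e i)) = y u y⁻¹`, `τ y = ι n (f i')`, so `y ∈ K`, `u ∈ K` and the conjugation. `V`:
`w a = (w a * e₀) * e₀⁻¹`. The last property is P2 (`τ (z i) = z (i + 1)` for `i ≤ k`). -/
def OUT_stmt : Prop := ∃ (Y : Type) (_ : Group Y) (w : Vt →* Y) (τ : MulAut Y) (A : Finset Y) (e₀ : Y),
  VG w ∧ (∀ a, τ (w a) = w a) ∧ (∀ a ∈ A, Cen w a) ∧ Cen w e₀ ∧ (∀ a, e₀ ≠ w a) ∧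
  (∀ u, Cen w u → u ∈ Subgroup.closure {x | ∃ k : ℤ, ∃ a ∈ A, x = (τ ^ k) a}) ∧
  (∀ u, Cen w u → (∀ a, u ≠ w a) → ∃ (c : Y) (k : ℤ), Cen w c ∧ c * (τ ^ k) e₀ * c⁻¹ = u) ∧
  (∀ a b : Vt, a ≠ 1 → b ≠ 1 → ∃ x, x * w a * x⁻¹ = w b) ∧
  (∀ u, Cen w u → ∀ k : ℕ, ∃ z, Cen w z ∧ (τ ^ (k + 1)) z = u⁻¹ * z)

/-! ## Part D: growth -/

/-- The properties of the final group. -/
structure GD (G : Type) [Group G] (v : Vt →* G) (π : G →* Multiplicative ℤ) (t z s e₀ : G)
    (a₀ : Vt) : Prop where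
  fg : Group.FG G
  inj : Injective v
  cen : ∀ a g, Commute (v a) g
  piv : ∀ a, π (v a) = 1
  pit : π t = Multiplicative.ofAdd 1
  cU : ∀ g, π g = 1 → (∀ a, g ≠ v a) → IsConj e₀ g
  cT : ∀ g h, π g = π h → π g ≠ 1 → IsConj g h
  aut : ∀ a b : Vt, a ≠ 1 → b ≠ 1 → ∃ φ : MulAut G, φ (v a) = v b
  e1 : π e₀ = 1
  e2 : ∀ a, e₀ ≠ v a
  z1 : π z = 1
  zz : s * z * s⁻¹ = z ^ 2
  tz : t * z * t⁻¹ = v a₀ * z
  a0 : a₀ ≠ 1

/-- GRP (from OUT). PROOF. `H = SemidirectProduct Y (Multiplicative ℤ) φ`, `φ (ofAdd k) = τ^k`, and `G` the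
subgroup of the `x` with `Cen w x.left`; it is normal (`x⁻¹ τ^k (x)` is in `Cen`, as `τ` is the
identity on `V` and `V` is normal). `v`, `π = rightHom`, `t = inr (ofAdd 1)`. Generated by `A` and `t`.
`cU`: `(c, k) (e₀, 0) (c, k)⁻¹ = (c τ^k(e₀) c⁻¹, 0)`. `cT`: `(u, k)` with `k ≥ 1` is conjugate to `(1, k)`:
`z` with `τ^k z = u⁻¹ z`, so `u τ^k(z) = z` and `(u, k) (z, 0) = (z, k)
= (z, 0) (1, k)`; for `k ≤ -1` invert. `aut`: conjugation by `x` (`MulAut.conjNormal`). `z`: from the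
last property of OUT with `u = w (a₀)⁻¹`, `k = 0`: `τ z = w a₀ * z`; `z ∉ V` as `τ` is the identity on
`V`, `z^2 ∉ V` by `VG.tf`, so `z` and `z^2` are conjugate to `e₀`. -/
def GRP_stmt : Prop := ∃ (G : Type) (_ : Group G) (v : Vt →* G) (π : G →* Multiplicative ℤ)
  (t z s e₀ : G) (a₀ : Vt), GD G v π t z s e₀ a₀

/-- BAL. Balls. The cardinality: the ball is the image of the lists of length `n` in
`Option (S ⊕ S)` (`none` is `1`), `(2 |S| + 1)^n` functions `Fin n → Option (S ⊕ S)`. -/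
def BAL_stmt : Prop := ∀ (G : Type) [Group G] (S : Finset G),
  (∀ m n g h, g ∈ Ball (S : Set G) m → h ∈ Ball (S : Set G) n → g * h ∈ Ball (S : Set G) (m + n)) ∧
  (∀ n g, g ∈ Ball (S : Set G) n → g⁻¹ ∈ Ball (S : Set G) n) ∧
  (∀ m n, m ≤ n → Ball (S : Set G) m ⊆ Ball (S : Set G) n) ∧
  (Subgroup.closure (S : Set G) = ⊤ → ∀ g, ∃ n, g ∈ Ball (S : Set G) n) ∧
  ∀ n, (Ball (S : Set G) n).Finite ∧ (Ball (S : Set G) n).ncard ≤ (2 * S.card + 1) ^ n

/-- CUP (from BAL): the set of classes is the image of the ball. -/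
def CUP_stmt : Prop := ∀ (G : Type) [Group G] (S : Finset G) (n : ℕ),
  conjGrowth (S : Set G) n ≤ (2 * S.card + 1) ^ n

/-- CLO (from BAL). PROOF. `z^(2m) = s z^m s⁻¹`, so `z^m` is in the ball of radius `K' (n + 1)` for
`m < 2^n` (induction on `n`, binary expansion). `v a₀` is central and `t z^m t⁻¹ = (v a₀)^m z^m`, so
`v (a₀^m) = t z^m t⁻¹ z^(-m)` is in the ball of radius `K n + K` for `m < 2^n`; these are different
(`Vt` is torsion free) and central, so not conjugate: `ConjClasses.mk` is injective on them. -/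
def CLO_stmt : Prop := ∀ (G : Type) [Group G] (v : Vt →* G) (π : G →* Multiplicative ℤ)
  (t z s e₀ : G) (a₀ : Vt), GD G v π t z s e₀ a₀ → ∀ S : Finset G,
  Subgroup.closure (S : Set G) = ⊤ →
  ∃ K : ℕ, 1 ≤ K ∧ ∀ n, 2 ^ n ≤ conjGrowth (S : Set G) (K * n + K)

/-- AUP. PROOF. `M` = the maximum of `|π s|` for `s` in `S`. An element `g` of the ball of radius `n` has
`|π g| ≤ M n`. Its orbit is determined by: `π g` if `π g ≠ 1` (cT; `MulAut.conj`); if `π g = 1` it is
the orbit of `1`, of `v a₀` (aut) or of `e₀` (cU). So at most `2 M n + 1 + 3` orbits. -/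
def AUP_stmt : Prop := ∀ (G : Type) [Group G] (v : Vt →* G) (π : G →* Multiplicative ℤ)
  (t z s e₀ : G) (a₀ : Vt), GD G v π t z s e₀ a₀ → ∀ S : Finset G,
  ∃ K : ℕ, 1 ≤ K ∧ ∀ n, autGrowth (S : Set G) n ≤ K * n + K

/-- ALO (from BAL). PROOF. Every homomorphism `χ` from `G` to `Multiplicative ℤ` kills `ker π`:
`χ z = χ z^2`, so `χ z = 1`; `z` is conjugate to `e₀` (`z ∉ V` as `t z t⁻¹ ≠ z`), so `χ` kills all
elements of `ker π` outside `V`, and `v a = (v a * e₀) * e₀⁻¹`. So `χ g = (χ t)^(π g)`. For an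
automorphism `φ` and `χ = π ∘ φ` (surjective) this gives `χ t = ofAdd (± 1)`, so `π (φ g) = (π g)^(± 1)`.
So `t^k`, `0 ≤ k ≤ n`, are in different orbits, all in the ball of radius `K n` if `t` is in the
ball of radius `K`. The set of orbits is finite (BAL) so `ncard` is monotone. -/
def ALO_stmt : Prop := ∀ (G : Type) [Group G] (v : Vt →* G) (π : G →* Multiplicative ℤ)
  (t z s e₀ : G) (a₀ : Vt), GD G v π t z s e₀ a₀ → ∀ S : Finset G,
  Subgroup.closure (S : Set G) = ⊤ →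
  ∃ K : ℕ, 1 ≤ K ∧ ∀ n, n ≤ autGrowth (S : Set G) (K * n + K)

/-- FIN (from GRP, BAL, CUP, CLO, AUP, ALO). The theorem. PROOF. `conjGrowth` is monotone in `n` (BAL:
finite sets). `(2 |S| + 1)^n ≤ exp (C n)` for `C = 2 |S| + 1`; `exp n ≤ 4^n = 2^(2n) ≤
conjGrowth (2 K n + K) ≤ conjGrowth (2 K n + 2 K)`. -/
def FIN_stmt : Prop := ∃ (G : Type) (_ : Group G), Group.FG G ∧ ∀ S : Finset G,
  Subgroup.closure (S : Set G) = ⊤ →
    ExpGrowth (conjGrowth (S : Set G)) ∧
    GEquiv (fun n => (autGrowth (S : Set G) n : ℝ)) (fun n => (n : ℝ) ^ 1)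

end Pool.Agent.AGR
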